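import Pool.Agent.H77.WC.Stm

/-!
Part NRL of the crew WC (MP_d5a689_co): from integer to real variable.
-/

set_option autoImplicit false

namespace Pool.Agent.H85.WC

open Filter Topology Set MeasureTheory
open Pool.Agent.H77.WC

theorem nrl : S_NRL := by
  intro C d h
  have hfl : Tendsto (fun x : ℝ => ⌊x⌋₊) atTop atTop := tendsto_nat_floor_atTop
  have h1 : Tendsto (fun x : ℝ => hs C ⌊x⌋₊ / Real.log (⌊x⌋₊ : ℝ)) atTop (𝓝 d) :=
    Tendsto.comp h hfl
  have h2 : Tendsto (fun x : ℝ => Real.log (⌊x⌋₊ : ℝ) / Real.log x) atTop (𝓝 1) := by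
    have h3 : Tendsto (fun x : ℝ => 1 - 1 / Real.log x) atTop (𝓝 1) := by
      have := (tendsto_const_nhds (x := (1 : ℝ)) (f := (atTop : Filter ℝ))).sub
        (Real.tendsto_log_atTop.inv_tendsto_atTop)
      simpa using this
    refine tendsto_of_tendsto_of_tendsto_of_le_of_le' h3 tendsto_const_nhds ?_ ?_
    · filter_upwards [eventually_ge_atTop (2 : ℝ)] with x hx
      have hl : 0 < Real.log x := Real.log_pos (by linarith)
      have hf : (1 : ℝ) ≤ (⌊x⌋₊ : ℝ) := by
        have : 1 ≤ ⌊x⌋₊ := Nat.le_floor (by push_cast; linarith)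
        exact_mod_cast this
      rw [le_div_iff₀ hl, sub_mul, one_mul, one_div, inv_mul_cancel₀ hl.ne']
      have h5 : x ≤ 2 * (⌊x⌋₊ : ℝ) := by
        have := Nat.lt_floor_add_one x
        linarith
      have h6 : Real.log x ≤ Real.log 2 + Real.log (⌊x⌋₊ : ℝ) := by
        rw [← Real.log_mul (by norm_num) (by linarith)]
        exact Real.log_le_log (by linarith) h5
      have h7 := Real.log_two_lt_d9
      linarith
    · filter_upwards [eventually_ge_atTop (2 : ℝ)] with x hx
      have hl : 0 < Real.log x := Real.log_pos (by linarith)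
      have hf : (1 : ℝ) ≤ (⌊x⌋₊ : ℝ) := by
        have : 1 ≤ ⌊x⌋₊ := Nat.le_floor (by push_cast; linarith)
        exact_mod_cast this
      rw [div_le_one hl]
      exact Real.log_le_log (by linarith) (Nat.floor_le (by linarith))
  have h4 := h1.mul h2
  rw [mul_one] at h4
  refine h4.congr' ?_
  filter_upwards [eventually_ge_atTop (2 : ℝ)] with x hx
  have hf : (2 : ℝ) ≤ (⌊x⌋₊ : ℝ) := by
    have : 2 ≤ ⌊x⌋₊ := Nat.le_floor (by push_cast; linarith)
    exact_mod_cast this
  have hl : 0 < Real.log (⌊x⌋₊ : ℝ) := Real.log_pos (by linarith)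
  have hl' : 0 < Real.log x := Real.log_pos (by linarith)
  field_simp

end Pool.Agent.H85.WC
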